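import Pool.Agent.Helper74.UB.Goals3

/-!
# Packet UB-HOSTFLAT
-/

set_option autoImplicit false

namespace Pool.Agent.Helper10.UB

open Finset Equiv Helper28.VF Pool.Agent.Helper74.UB
open scoped Classical

theorem lev_zero (h : ℕ) (r : ℤ) (h0 : 0 ≤ r) (h1 : r ≤ h) : lev h r = 0 := by
  unfold lev
  omega

theorem hostF_val (K h : ℕ) (r : ℤ) (i : ZMod (3 * 2 ^ K)) (h0 : 0 ≤ r) (h1 : r ≤ h) :
    (hostF K h r i).1 = (r, i) := by
  unfold hostF
  rw [dif_pos ⟨h0, h1⟩]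

theorem hv_ext {K h : ℕ} {p q : HV K h} (h1 : p.1.1 = q.1.1) (h2 : p.1.2 = q.1.2) : p = q :=
  Subtype.ext (Prod.ext h1 h2)

theorem eq_iff {K h : ℕ} (k : HV K h) (r : ℤ) (i : ZMod (3 * 2 ^ K)) (h0 : 0 ≤ r) (h1 : r ≤ h) :
    k = hostF K h r i ↔ k.1.1 = r ∧ k.1.2 = i := by
  have h2 := hostF_val K h r i h0 h1
  constructor
  · rintro rfl
    rw [h2]
    exact ⟨rfl, rfl⟩
  · rintro ⟨e1, e2⟩
    exact hv_ext (by rw [h2]; exact e1) (by rw [h2]; exact e2)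

theorem up_iff {K h : ℕ} (r : ℕ) (i : ZMod (3 * 2 ^ K)) (k : HV K h) (h1 : r < h) :
    (hostL K h).up (hostF K h r i) k ↔
      (k.1.1 = (r : ℤ) + 1 ∧ if Even (r : ℤ) then k.1.2 = i else k.1.2 = i ∨ k.1.2 = i + 1) := by
  have h2 := hostF_val K h r i (by omega) (by omega)
  show (k.1.1 = (hostF K h r i).1.1 + 1 ∧
    (if (hostF K h r i).1.1 < 0 ∨ (h : ℤ) ≤ (hostF K h r i).1.1 then
      ∃ c : ℕ, c ≤ 2 ∧ (hostF K h r i).1.2 = k.1.2 + c * 2 ^ (min (lev h (hostF K h r i).1.1) (lev h k.1.1))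
    else if Even (hostF K h r i).1.1 then k.1.2 = (hostF K h r i).1.2
    else k.1.2 = (hostF K h r i).1.2 ∨ k.1.2 = (hostF K h r i).1.2 + 1)) ↔ _
  rw [h2]
  rw [if_neg (show ¬ (((r : ℤ), i).1 < 0 ∨ (h : ℤ) ≤ ((r : ℤ), i).1) by
    show ¬ ((r : ℤ) < 0 ∨ (h : ℤ) ≤ (r : ℤ))
    omega)]

theorem hostflat : StmtHostFlat := by
  intro K h hK hh
  refine ⟨?_, ?_, ?_, ?_, ?_, ?_⟩
  · intro r i h0 h1
    show (hostF K h r i).1.1 = r
    rw [hostF_val K h r i (by omega) (by omega)]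
  · intro v h0 h1
    exact ⟨v.1.2, ((eq_iff v v.1.1 v.1.2 h0 h1).2 ⟨rfl, rfl⟩).symm⟩
  · intro r i j h0 h1 hij
    have h2 := hostF_val K h r i (by omega) (by omega)
    have h3 := hostF_val K h r j (by omega) (by omega)
    rw [hij, h3] at h2
    exact (congrArg Prod.snd h2).symm
  · intro r i h0 h1
    have h2 := hostF_val K h r i (by omega) (by omega)
    rw [eq_iff _ _ _ (by omega) (by omega)]
    refine ⟨?_, ?_⟩
    · show (hostF K h r i).1.1 = _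
      rw [h2]
    · show (hostF K h r i).1.2 + 2 ^ (lev h (hostF K h r i).1.1) = _
      rw [h2]
      show i + 2 ^ (lev h (r : ℤ)) = i + 1
      rw [lev_zero h r (by omega) (by omega), pow_zero]
  · intro r i k h0 h1 hr
    rw [up_iff r i k h1, eq_iff k _ _ (by omega) (by omega),
      if_pos (by exact_mod_cast hr)]
  · intro r i k h0 h1 hr
    rw [up_iff r i k h1, eq_iff k _ _ (by omega) (by omega), eq_iff k _ _ (by omega) (by omega),
      if_neg (by exact_mod_cast hr)]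
    tauto

end Pool.Agent.Helper10.UB
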